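import Pool.Agent.H83.G.Targets5

/-! Row CBN of the board `g_modules`: lattices, cubes and counting. -/

set_option autoImplicit false

namespace Pool.Agent.H69.G.CBN

open MeasureTheory Set Pool.Agent.H83.G
open scoped ENNReal NNReal RealInnerProductSpace

private theorem floor_bd {ρ : ℝ} (hρ : 0 < ρ) (x : ℝ) : |x - ρ * (⌊x / ρ⌋ : ℝ)| ≤ ρ := by
  have h1 := Int.floor_le (x / ρ)
  have h2 := Int.lt_floor_add_one (x / ρ)
  rw [le_div_iff₀ hρ] at h1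
  rw [div_lt_iff₀ hρ] at h2
  rw [abs_le]
  constructor <;> nlinarith

private theorem cube {m : ℕ} {ρ : ℝ} (hρ : 0 < ρ) (z : Z m) :
    ‖z - ρ • zc (cb ρ z)‖ ≤ ((m : ℝ) + 1) * ρ := by
  have hm : (0 : ℝ) ≤ m := Nat.cast_nonneg m
  have h1 : ρ ≤ ((m : ℝ) + 1) * ρ := by nlinarith
  rw [Prod.norm_def, Prod.norm_def]
  refine max_le ?_ (max_le ?_ ?_)
  · exact (floor_bd hρ z.1).trans h1
  · rw [EuclideanSpace.norm_eq]
    refine Real.sqrt_le_iff.2 ⟨by positivity, ?_⟩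
    have h2 : ∀ i : Fin m, ‖(z - ρ • zc (cb ρ z)).2.1 i‖ ^ 2 ≤ ρ ^ 2 := by
      intro i
      have h3 : (z - ρ • zc (cb ρ z)).2.1 i = z.2.1 i - ρ * (⌊z.2.1 i / ρ⌋ : ℝ) := rfl
      rw [h3, Real.norm_eq_abs]
      exact pow_le_pow_left₀ (abs_nonneg _) (floor_bd hρ _) 2
    refine (Finset.sum_le_sum fun i _ => h2 i).trans ?_
    rw [Finset.sum_const, Finset.card_univ, Fintype.card_fin, nsmul_eq_mul, mul_pow]
    refine mul_le_mul_of_nonneg_right ?_ (by positivity)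
    nlinarith
  · exact (floor_bd hρ z.2.2).trans h1

private theorem count {m : ℕ} {C3 : ℝ≥0}
    (h3 : ∀ (c : ℝ) (x : Z m), 0 < c → c ≤ 1 →
      ∑' l : Zi m, ENNReal.ofReal (wt (m + 3) (c • zc l - x)) ≤
        C3 * ENNReal.ofReal ((c⁻¹) ^ (m + 2)))
    (ρ : ℝ) (x : Z m) (J : Finset (Zi m)) (hρ : 1 ≤ ρ) (hJ : ∀ j ∈ J, ‖zc j - x‖ ≤ ρ) :
    (J.card : ℝ) ≤ 2 ^ (m + 3) * ((C3 : ℝ) + 1) * ρ ^ (m + 2) := by
  have hρ0 : 0 < ρ := by linarith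
  have hC : (0 : ℝ) ≤ C3 := C3.coe_nonneg
  have h4 := h3 ρ⁻¹ (ρ⁻¹ • x) (by positivity) (inv_le_one_of_one_le₀ hρ)
  have h5 : ∑ j ∈ J, ENNReal.ofReal (wt (m + 3) (ρ⁻¹ • zc j - ρ⁻¹ • x)) ≤
      C3 * ENNReal.ofReal ((ρ⁻¹⁻¹) ^ (m + 2)) := (ENNReal.sum_le_tsum J).trans h4
  have h6 : ∀ j ∈ J, ((2 : ℝ) ^ (m + 3))⁻¹ ≤ wt (m + 3) (ρ⁻¹ • zc j - ρ⁻¹ • x) := by
    intro j hj
    rw [← smul_sub]
    unfold wt
    rw [norm_smul, Real.norm_eq_abs, abs_of_nonneg (by positivity)]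
    refine inv_anti₀ (by positivity) (pow_le_pow_left₀ (by positivity) ?_ _)
    have h7 : ρ⁻¹ * ‖zc j - x‖ ≤ ρ⁻¹ * ρ := mul_le_mul_of_nonneg_left (hJ j hj) (by positivity)
    rw [inv_mul_cancel₀ hρ0.ne'] at h7
    linarith
  have hnn : ∀ j ∈ J, 0 ≤ wt (m + 3) (ρ⁻¹ • zc j - ρ⁻¹ • x) := fun j hj =>
    le_trans (by positivity) (h6 j hj)
  rw [← ENNReal.ofReal_sum_of_nonneg hnn, ← ENNReal.ofReal_coe_nnreal,
    ← ENNReal.ofReal_mul C3.coe_nonneg, inv_inv] at h5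
  have h8 : ∑ j ∈ J, wt (m + 3) (ρ⁻¹ • zc j - ρ⁻¹ • x) ≤ (C3 : ℝ) * ρ ^ (m + 2) :=
    (ENNReal.ofReal_le_ofReal_iff (by positivity)).1 h5
  have h9 : (J.card : ℝ) * ((2 : ℝ) ^ (m + 3))⁻¹ ≤ (C3 : ℝ) * ρ ^ (m + 2) := by
    refine le_trans ?_ h8
    rw [← nsmul_eq_mul, ← Finset.sum_const]
    exact Finset.sum_le_sum h6
  have h10 : (0 : ℝ) < 2 ^ (m + 3) := by positivity
  have h11 : (J.card : ℝ) ≤ (C3 : ℝ) * ρ ^ (m + 2) * 2 ^ (m + 3) := by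
    rw [← div_eq_mul_inv, div_le_iff₀ h10] at h9
    exact h9
  have h12 : 0 < ρ ^ (m + 2) := by positivity
  calc (J.card : ℝ) ≤ (C3 : ℝ) * ρ ^ (m + 2) * 2 ^ (m + 3) := h11
    _ ≤ ((C3 : ℝ) + 1) * ρ ^ (m + 2) * 2 ^ (m + 3) := by gcongr; linarith
    _ = _ := by ring

theorem pf_CBN (hWT3 : T_WT3) : T_CBN := by
  classical
  intro m
  have hm : (0 : ℝ) ≤ m := Nat.cast_nonneg m
  obtain ⟨C3, h3, -⟩ := hWT3 m (m + 3) le_rfl
  have hC : (0 : ℝ) ≤ C3 := C3.coe_nonneg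
  refine ⟨fun ρ z hρ => cube hρ z, ?_, ?_⟩
  · intro R δ W z hR hδ hn
    refine ⟨W, z, rfl, ?_, hn⟩
    have hR0 : 0 < R := by linarith
    refine (cube (Real.sqrt_pos.2 hR0) z).trans ?_
    refine mul_le_mul_of_nonneg_left ?_ (by positivity)
    rw [Real.sqrt_eq_rpow]
    exact Real.rpow_le_rpow_of_exponent_le hR (by linarith)
  · set C1 : ℝ := 2 ^ (m + 3) * ((C3 : ℝ) + 1) with hC1
    have hC11 : 1 ≤ C1 := by
      rw [hC1]
      have h1 : (1 : ℝ) ≤ 2 ^ (m + 3) := one_le_pow₀ (by norm_num)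
      nlinarith
    have hp : (1 : ℝ) ≤ (2 * (m : ℝ) + 3) ^ (m + 2) := one_le_pow₀ (by linarith)
    refine ⟨C1 * (2 * (m : ℝ) + 3) ^ (m + 2), by nlinarith, ?_, ?_⟩
    · intro ρ x J hρ hJ
      refine (count h3 ρ x J hρ hJ).trans ?_
      refine mul_le_mul_of_nonneg_right ?_ (by positivity)
      nlinarith
    · intro R r z₀ QQ hr hrR hR hQ
      have h1 : 1 ≤ R / r := (one_le_div hr).2 hrR
      have h2 : 1 ≤ (2 * (m : ℝ) + 3) * (R / r) := by nlinarith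
      have h4 := count h3 ((2 * (m : ℝ) + 3) * (R / r)) (r⁻¹ • z₀) (QQ.image (bl R r)) h2 (by
        intro j hj
        obtain ⟨q, hq, rfl⟩ := Finset.mem_image.1 hj
        have h5 := cube hr (Real.sqrt R • zc q)
        have e1 : zc (bl R r q) - r⁻¹ • z₀ =
            r⁻¹ • (Real.sqrt R • zc q - z₀) -
              r⁻¹ • (Real.sqrt R • zc q - r • zc (cb r (Real.sqrt R • zc q))) := by
          rw [smul_sub, smul_sub, smul_smul r⁻¹ r, inv_mul_cancel₀ hr.ne', one_smul]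
          unfold bl
          abel
        rw [e1]
        have hr' : 0 < r⁻¹ := by positivity
        have h6 : ‖r⁻¹ • (Real.sqrt R • zc q - z₀)‖ ≤ ((m : ℝ) + 2) * (R / r) := by
          rw [norm_smul, Real.norm_eq_abs, abs_of_pos hr']
          calc r⁻¹ * ‖Real.sqrt R • zc q - z₀‖ ≤ r⁻¹ * (((m : ℝ) + 2) * R) :=
                mul_le_mul_of_nonneg_left (hQ q hq) hr'.le
            _ = _ := by rw [div_eq_mul_inv]; ring
        have h7 : ‖r⁻¹ • (Real.sqrt R • zc q - r • zc (cb r (Real.sqrt R • zc q)))‖ ≤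
            (m : ℝ) + 1 := by
          rw [norm_smul, Real.norm_eq_abs, abs_of_pos hr']
          calc r⁻¹ * ‖Real.sqrt R • zc q - r • zc (cb r (Real.sqrt R • zc q))‖
              ≤ r⁻¹ * (((m : ℝ) + 1) * r) := mul_le_mul_of_nonneg_left h5 hr'.le
            _ = (r⁻¹ * r) * ((m : ℝ) + 1) := by ring
            _ = (m : ℝ) + 1 := by rw [inv_mul_cancel₀ hr.ne', one_mul]
        refine (norm_sub_le _ _).trans ((add_le_add h6 h7).trans ?_)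
        nlinarith)
      refine h4.trans (le_of_eq ?_)
      rw [mul_pow]
      ring

end Pool.Agent.H69.G.CBN
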