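import Pool.Agent.H83.G.Targets2

/-! Row TLS of the board `g_modules`: planks far from the point. -/

set_option autoImplicit false

namespace Pool.Agent.H69.G.TLS

open MeasureTheory Set Pool.Agent.H83.G
open scoped ENNReal NNReal RealInnerProductSpace

private theorem rg_mono {m : ℕ} {κ κ' c : ℝ} (h : κ ≤ κ') (h0 : κ ≤ 1 / 2) (hc : 0 ≤ c) {ζ : Z m}
    (hζ : ζ ∈ Rg m κ c) : ζ ∈ Rg m κ' c := by
  obtain ⟨h1, h2, h3, h4⟩ := hζ
  have h5 : 0 ≤ ζ.1 := by linarith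
  exact ⟨by linarith, by linarith, h3.trans (mul_le_mul_of_nonneg_right (by linarith) h5),
    h4.trans (mul_le_mul_of_nonneg_right (by linarith) hc)⟩

private theorem wt_nonneg {m : ℕ} (N : ℕ) (z : Z m) : 0 ≤ wt N z := by
  unfold wt
  positivity

private theorem sR_inv_pow {R : ℝ} (hR : 1 ≤ R) (m : ℕ) : (sR R)⁻¹ ^ m = R ^ ((m : ℝ) / 2) := by
  have hR0 : 0 ≤ R := by linarith
  unfold sR
  rw [inv_inv, Real.sqrt_eq_rpow, ← Real.rpow_natCast, ← Real.rpow_mul hR0]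
  congr 1
  ring

private theorem sum_wt {m N' : ℕ} {C3 : ℝ≥0} {C4 : ℝ}
    (h3 : ∀ (x : Z m) (ρ : ℝ) (S : Set (Zi m)), 0 ≤ ρ → (∀ l ∈ S, ρ ≤ ‖x - zc l‖) →
      ∑' l : S, ENNReal.ofReal (wt N' (x - zc (l : Zi m))) ≤
        C3 * ENNReal.ofReal ((1 + ρ) ^ (m + 3) * ((1 + ρ) ^ N')⁻¹))
    (h4 : ∀ s : ℝ, 0 < s → s ≤ 1 → ((Ks m s).card : ℝ) ≤ C4 * (s⁻¹) ^ m)
    {R δ ρ : ℝ} (hR : 1 ≤ R) (hρ : 0 ≤ ρ) (S : Finset (Pk m)) (z : Z m)
    (hS : ∀ W ∈ S, W.1 ∈ Ks m (sR R)) (hfar : ∀ W ∈ S, ρ ≤ ‖fc R δ W.1 z - zc W.2‖) :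
    ∑ W ∈ S, wt N' (fc R δ W.1 z - zc W.2) ≤
      C4 * R ^ ((m : ℝ) / 2) * (C3 * ((1 + ρ) ^ (m + 3) * ((1 + ρ) ^ N')⁻¹)) := by
  classical
  have hQ : 0 ≤ (C3 : ℝ) * ((1 + ρ) ^ (m + 3) * ((1 + ρ) ^ N')⁻¹) := by positivity
  have each : ∀ k ∈ Ks m (sR R), ∑ W ∈ S.filter (fun W => W.1 = k),
      wt N' (fc R δ W.1 z - zc W.2) ≤ C3 * ((1 + ρ) ^ (m + 3) * ((1 + ρ) ^ N')⁻¹) := by
    intro k _
    have e1 : ∑ W ∈ S.filter (fun W => W.1 = k), wt N' (fc R δ W.1 z - zc W.2) =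
        ∑ l ∈ (S.filter (fun W => W.1 = k)).image Prod.snd, wt N' (fc R δ k z - zc l) := by
      rw [Finset.sum_image]
      · refine Finset.sum_congr rfl fun W hW => ?_
        rw [(Finset.mem_filter.1 hW).2]
      · intro a ha b hb hab
        have ha' := (Finset.mem_filter.1 (Finset.mem_coe.1 ha)).2
        have hb' := (Finset.mem_filter.1 (Finset.mem_coe.1 hb)).2
        exact Prod.ext (ha'.trans hb'.symm) hab
    rw [e1]
    have h5 := h3 (fc R δ k z) ρ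
      (((S.filter (fun W => W.1 = k)).image Prod.snd : Finset (Zi m)) : Set (Zi m)) hρ (by
        intro l hl
        obtain ⟨W, hW, rfl⟩ := Finset.mem_image.1 (Finset.mem_coe.1 hl)
        obtain ⟨hW1, hW2⟩ := Finset.mem_filter.1 hW
        rw [← hW2]
        exact hfar W hW1)
    rw [Finset.tsum_subtype' ((S.filter (fun W => W.1 = k)).image Prod.snd)
      (fun l => ENNReal.ofReal (wt N' (fc R δ k z - zc l))),
      ← ENNReal.ofReal_sum_of_nonneg (fun l _ => wt_nonneg _ _), ← ENNReal.ofReal_coe_nnreal,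
      ← ENNReal.ofReal_mul C3.coe_nonneg] at h5
    exact (ENNReal.ofReal_le_ofReal_iff hQ).1 h5
  rw [← Finset.sum_fiberwise_of_maps_to (t := Ks m (sR R)) (g := Prod.fst) hS]
  refine (Finset.sum_le_sum each).trans ?_
  rw [Finset.sum_const, nsmul_eq_mul]
  refine mul_le_mul_of_nonneg_right ?_ hQ
  rw [← sR_inv_pow hR]
  have h1 : 1 ≤ Real.sqrt R := by
    rw [← Real.sqrt_one]
    exact Real.sqrt_le_sqrt hR
  refine h4 (sR R) ?_ ?_
  · unfold sR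
    positivity
  · unfold sR
    exact inv_le_one_of_one_le₀ h1

theorem pf_TLS (hPTW : T_PTW) (hAMU : T_AMU) (hWT3 : T_WT3) (hPUS : T_PUS) : T_TLS := by
  intro m L N β Ψ ψ δ M hβ hΨ hδ hδ4 hN
  set k0 : ℕ := ⌈(M + m + 2) / δ⌉₊ with hk0
  have hk : M + m + 2 ≤ δ * k0 := by
    have h := Nat.le_ceil ((M + m + 2) / δ)
    rw [← hk0, div_le_iff₀ hδ] at h
    linarith
  obtain ⟨C1, hC1, hF⟩ := hPTW m N (m + 3 + k0) β Ψ ψ δ hβ hΨ hδ.le
  obtain ⟨C2, hC2, hA2⟩ := hAMU m L N β δ hβ hδ.le hN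
  obtain ⟨C3, -, hW3, -⟩ := hWT3 m (m + 3 + k0) (by omega)
  obtain ⟨-, -, C4, hC4, hcard, -, -⟩ := hPUS m
  have hm0 : (0 : ℝ) ≤ m := Nat.cast_nonneg m
  have hexp : δ * ((m : ℝ) + 2) / 2 + (m : ℝ) / 2 ≤ (m : ℝ) + 2 := by
    nlinarith
  refine ⟨C1 * (C2 + 1) * C4 * (C3 + 1), by positivity, ?_⟩
  intro κ R A G S z hκ hκ2 hR hA hG hS
  have hR0 : 0 < R := by linarith
  have hsupp : ∀ ζ, G ζ ≠ 0 → ζ ∈ Rg m (1 / 2) R⁻¹ := fun ζ hζ =>
    rg_mono hκ2 hκ2 (by positivity) (hG.2.1 ζ hζ)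
  have hP : ∀ a ρ : ℝ, 0 ≤ a → 0 ≤ ρ → (∀ W ∈ S, al N β R δ G W ≤ a) →
      (∀ W ∈ S, ρ ≤ ‖fc R δ W.1 z - zc W.2‖) →
      ∑ W ∈ S, ‖Fp β ψ R δ G W z‖ ≤ C1 * R ^ (δ * ((m : ℝ) + 2) / 2) * a *
        (C4 * R ^ ((m : ℝ) / 2) *
          (C3 * ((1 + ρ) ^ (m + 3) * ((1 + ρ) ^ (m + 3 + k0))⁻¹))) := by
    intro a ρ ha hρ hal hfar
    have h0 : 0 ≤ C1 * R ^ (δ * ((m : ℝ) + 2) / 2) := by positivity
    calc ∑ W ∈ S, ‖Fp β ψ R δ G W z‖
        ≤ ∑ W ∈ S, C1 * R ^ (δ * ((m : ℝ) + 2) / 2) * a *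
          wt (m + 3 + k0) (fc R δ W.1 z - zc W.2) := by
          refine Finset.sum_le_sum fun W hW => ?_
          refine (hF R G W z hR hG.1 hsupp).trans ?_
          exact mul_le_mul_of_nonneg_right (mul_le_mul_of_nonneg_left (hal W hW) h0)
            (wt_nonneg _ _)
      _ = C1 * R ^ (δ * ((m : ℝ) + 2) / 2) * a *
          ∑ W ∈ S, wt (m + 3 + k0) (fc R δ W.1 z - zc W.2) := by rw [← Finset.mul_sum]
      _ ≤ _ := mul_le_mul_of_nonneg_left (sum_wt hW3 hcard hR hρ S z hS hfar)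
          (mul_nonneg h0 ha)
  constructor
  · intro hfar
    have h1 := hP (C2 * A) (R ^ δ) (by positivity) (by positivity)
      (fun W hW => (hA2 κ R A G W hκ hκ2 hR hA hG).1)
      (fun W hW => le_of_not_ge (hfar W hW))
    refine h1.trans ?_
    have hx : 0 < 1 + R ^ δ := by positivity
    have e1 : (1 + R ^ δ) ^ (m + 3) * ((1 + R ^ δ) ^ (m + 3 + k0))⁻¹ = ((1 + R ^ δ) ^ k0)⁻¹ := by
      rw [pow_add (1 + R ^ δ) (m + 3) k0, mul_inv, ← mul_assoc,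
        mul_inv_cancel₀ (pow_ne_zero _ hx.ne'), one_mul]
    have e2 : ((1 + R ^ δ) ^ k0)⁻¹ ≤ R ^ (-(δ * k0)) := by
      rw [Real.rpow_neg hR0.le, Real.rpow_mul hR0.le, Real.rpow_natCast]
      refine inv_anti₀ (by positivity) ?_
      exact pow_le_pow_left₀ (by positivity) (by linarith) _
    have e3 : R ^ (δ * ((m : ℝ) + 2) / 2) * R ^ ((m : ℝ) / 2) * R ^ (-(δ * k0)) ≤ R ^ (-M) := by
      rw [← Real.rpow_add hR0, ← Real.rpow_add hR0]
      exact Real.rpow_le_rpow_of_exponent_le hR (by linarith)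
    rw [e1]
    calc C1 * R ^ (δ * ((m : ℝ) + 2) / 2) * (C2 * A) * (C4 * R ^ ((m : ℝ) / 2) *
          (C3 * ((1 + R ^ δ) ^ k0)⁻¹))
        ≤ C1 * R ^ (δ * ((m : ℝ) + 2) / 2) * (C2 * A) * (C4 * R ^ ((m : ℝ) / 2) *
          (C3 * R ^ (-(δ * k0)))) := by gcongr
      _ = C1 * C2 * C4 * C3 * A *
          (R ^ (δ * ((m : ℝ) + 2) / 2) * R ^ ((m : ℝ) / 2) * R ^ (-(δ * k0))) := by ring
      _ ≤ C1 * C2 * C4 * C3 * A * R ^ (-M) := mul_le_mul_of_nonneg_left e3 (by positivity)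
      _ ≤ C1 * (C2 + 1) * C4 * (C3 + 1) * A * R ^ (-M) := by
          have h5 : C1 * C2 * C4 * C3 ≤ C1 * (C2 + 1) * C4 * (C3 + 1) := by
            have h6 : (0 : ℝ) ≤ C3 := C3.coe_nonneg
            have h7 : C1 * C2 * C4 ≤ C1 * (C2 + 1) * C4 := by
              have h8 : 0 ≤ C1 * C4 := by positivity
              nlinarith
            have h9 : 0 ≤ C1 * (C2 + 1) * C4 := by positivity
            nlinarith
          have h10 : 0 ≤ A * R ^ (-M) := by positivity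
          calc C1 * C2 * C4 * C3 * A * R ^ (-M) = C1 * C2 * C4 * C3 * (A * R ^ (-M)) := by ring
            _ ≤ C1 * (C2 + 1) * C4 * (C3 + 1) * (A * R ^ (-M)) :=
              mul_le_mul_of_nonneg_right h5 h10
            _ = _ := by ring
  · intro a ha hal
    have h1 := hP a 0 ha le_rfl hal (fun W _ => norm_nonneg _)
    refine h1.trans ?_
    rw [add_zero, one_pow, one_pow, inv_one, mul_one, mul_one]
    have e3 : R ^ (δ * ((m : ℝ) + 2) / 2) * R ^ ((m : ℝ) / 2) ≤ R ^ ((m : ℝ) + 2) := by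
      rw [← Real.rpow_add hR0]
      exact Real.rpow_le_rpow_of_exponent_le hR hexp
    have h6 : (0 : ℝ) ≤ C3 := C3.coe_nonneg
    calc C1 * R ^ (δ * ((m : ℝ) + 2) / 2) * a * (C4 * R ^ ((m : ℝ) / 2) * C3)
        = C1 * C4 * C3 * a * (R ^ (δ * ((m : ℝ) + 2) / 2) * R ^ ((m : ℝ) / 2)) := by ring
      _ ≤ C1 * C4 * C3 * a * R ^ ((m : ℝ) + 2) := mul_le_mul_of_nonneg_left e3 (by positivity)
      _ ≤ C1 * (C2 + 1) * C4 * (C3 + 1) * R ^ ((m : ℝ) + 2) * a := by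
          have h7 : C1 * C4 * C3 ≤ C1 * (C2 + 1) * C4 * (C3 + 1) := by
            have h8 : C1 * C4 ≤ C1 * (C2 + 1) * C4 := by
              have h8 : 0 ≤ C1 * C4 := by positivity
              nlinarith
            have h9 : 0 ≤ C1 * (C2 + 1) * C4 := by positivity
            nlinarith
          have h10 : 0 ≤ a * R ^ ((m : ℝ) + 2) := by positivity
          calc C1 * C4 * C3 * a * R ^ ((m : ℝ) + 2) = C1 * C4 * C3 * (a * R ^ ((m : ℝ) + 2)) := by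
                ring
            _ ≤ C1 * (C2 + 1) * C4 * (C3 + 1) * (a * R ^ ((m : ℝ) + 2)) :=
              mul_le_mul_of_nonneg_right h7 h10
            _ = _ := by ring

end Pool.Agent.H69.G.TLS
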